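import Pool.Agent.Q151.LC.Smo
import Pool.Agent.Q53.LC.Kil
import Pool.Agent.Q53.LC.Swd
import Pool.Agent.Q229.LC.NA1
import Pool.Agent.J6H44.P2.Stm

/-! Project P2: job SMO2, smoothing near the particles at all times between `u` and `u + 1` units. -/

set_option autoImplicit false

namespace Pool.Agent.J6H59.P2

open Finset Equiv Matrix Q292.LC Pool.Agent.J6H44.P2
open Pool.Agent.Q151.LC (tch_shift_set kv_shift kv_nonneg kv_supp kv_le_TT kv_contr rec_step
  jumps_units td_zero cnt_jump B1 B2 mem_bal sh_per sig_per td_tri td_self tch_exists)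

section gen
variable {V : Type} [Fintype V] [DecidableEq V]

/-- the mass of `kv` does not increase -/
lemma kv_mass (e : ℕ → V × V) (ω : ℕ → Bool) (A B : Finset V) (δ : ℝ) (h0 : 0 ≤ δ) (h1 : δ ≤ 1)
    (g : V → ℝ) (hg : ∀ y, 0 ≤ g y) (i m : ℕ) :
    ∑ y, kv e ω A δ B g (i + m) y ≤ ∑ y, kv e ω A δ B g i y := by
  induction m with
  | zero => exact le_refl _
  | succ m ih =>
    refine le_trans ?_ ih
    have hD := Pool.Agent.Q68.LC.DS_Mx e ω A h0 h1 (i + m)
    have hn : ∀ y, 0 ≤ (vecMul (kv e ω A δ B g (i + m)) (Mx e ω A δ (i + m))) y := by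
      intro y
      rw [vecMul, dotProduct]
      exact sum_nonneg fun x _ => mul_nonneg (kv_nonneg e ω A B δ h0 h1 g hg _ x) (hD.nn _ _)
    calc ∑ y, kv e ω A δ B g (i + (m + 1)) y
        ≤ ∑ y, (vecMul (kv e ω A δ B g (i + m)) (Mx e ω A δ (i + m))) y := by
          apply sum_le_sum
          intro y _
          have e1 : kv e ω A δ B g (i + (m + 1)) y =
              if y ∈ B then (vecMul (kv e ω A δ B g (i + m)) (Mx e ω A δ (i + m))) y else 0 := rfl
          rw [e1]
          split_ifs
          · exact le_rfl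
          · exact hn y
      _ = ∑ x, kv e ω A δ B g (i + m) x := by
          simp only [vecMul, dotProduct]
          rw [sum_comm]
          apply sum_congr rfl
          intro x _
          rw [← mul_sum, hD.row x, mul_one]

end gen

section torus
variable {d L : ℕ} [NeZero L]

theorem smo2_of (hK : S_KIL) (hS : S_SWD) (hN : S_NA1) : S_SMO2 := by
  classical
  intro d hd
  obtain ⟨CK, hCK1, hK⟩ := hK d (by omega)
  refine ⟨⌈CK⌉₊ + 1 + 16 * d, by omega, ?_⟩
  intro L _ hL σ hσ ω A δ q u R lam ρ κ₀ z h0 hC hq1 hq2 hzA hu hlam hJ hpair hk1 hk2 hR hRL n hn1 hn2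
  set N := q * ms d L with hNd
  set B := bal z R with hB
  set e := ed ∘ σ with he
  have hCKr : CK ≤ ⌈CK⌉₊ := Nat.le_ceil _
  have hceil0 : (0 : ℝ) ≤ ⌈CK⌉₊ := Nat.cast_nonneg _
  have hd0 : (0 : ℝ) ≤ d := Nat.cast_nonneg _
  have hCr : (((⌈CK⌉₊ + 1 + 16 * d : ℕ) : ℝ)) = ⌈CK⌉₊ + 1 + 16 * d := by push_cast; ring
  rw [hCr] at hC
  have hδ1 : δ ≤ 1 := by nlinarith
  have hCKδ : CK * δ ≤ 1 := by nlinarith
  have h16 : 16 * d * δ ≤ 1 := by nlinarith
  have hms : 0 < ms d L := by
    unfold ms
    have : 0 < L := by omega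
    positivity
  have hJall : ∀ a ∈ A, jumps e ω 0 (u * N) a ≤ ρ * u := fun a ha =>
    jumps_units e ω a N ρ u (fun j hj => hJ j (by omega) a ha)
  have hJall1 : ∀ a ∈ A, jumps e ω 0 ((u + 1) * N) a ≤ ρ * (u + 1) := fun a ha =>
    jumps_units e ω a N ρ (u + 1) (fun j hj => hJ j hj a ha)
  have hcnt1 := cnt_jump σ ω A z ((u + 1) * N) R (ρ * (u + 1)) lam hJall1 hlam
  have hlam0 : (A ∩ bal z (R + ρ * u + 4)).card ≤ lam := by
    refine le_trans (card_le_card ?_) hlam
    intro a ha
    rw [mem_inter, mem_bal] at ha ⊢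
    refine ⟨ha.1, ha.2.trans ?_⟩
    have : ρ * u ≤ ρ * (u + 1) := Nat.mul_le_mul_left _ (by omega)
    omega
  -- numbers of bad steps
  have hcnt := cnt_jump σ ω A z (u * N) R (ρ * u) lam hJall hlam0
  set g : ℕ → (Fin d → ZMod L) → ℝ := fun n => kv e ω A δ B (Pi.single z 1) n with hg
  have hzB : z ∈ B := mem_bal.2 (by rw [td_self]; exact Nat.zero_le _)
  have hs0 : ∀ y, 0 ≤ (Pi.single z 1 : (Fin d → ZMod L) → ℝ) y := by
    intro y; rw [Pi.single_apply]; split_ifs <;> norm_num
  have hsB : ∀ y, y ∉ B → (Pi.single z 1 : (Fin d → ZMod L) → ℝ) y = 0 := by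
    intro y hy
    rw [Pi.single_apply, if_neg]
    intro h
    rw [h] at hy
    exact hy hzB
  have hg0 : ∀ n y, 0 ≤ g n y := fun n y => kv_nonneg e ω A B δ h0.le hδ1 _ hs0 n y
  have hgB : ∀ n y, y ∉ B → g n y = 0 := fun n y hy => kv_supp e ω A B δ _ hsB n y hy
  have hgT : ∀ n y, g n y ≤ TT e ω A δ n z y := fun n y => kv_le_TT e ω A B δ h0.le hδ1 z n y
  have hg1 : ∀ n, ∑ y, g n y ≤ 1 := fun n => by
    rw [← (Pool.Agent.Q68.LC.DS_TT e ω A h0.le hδ1 n).row z]
    exact sum_le_sum fun y _ => hgT n y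
  have hgA : ∀ n, ∀ y ∈ A.image (gp e ω n), g n y = 0 := by
    intro n y hy
    have h1 := (Pool.Agent.Q68.LC.bas2 _ e ω A δ h0.le hδ1).2.2.2.2.1 n z hzA y hy
    have h2 := hgT n y
    rw [h1] at h2
    exact le_antisymm h2 (hg0 n y)
  -- nice sweeps
  set bad1 : Finset ℕ := (range (u * q)).filter (fun s => B1 σ ω A z R s) with hbad1
  set bad2 : Finset ℕ := (range (u * q)).filter (fun s => B2 σ ω A z R s) with hbad2
  have huN : u * N = (u * q) * ms d L := by rw [hNd]; ring
  have hb1 : bad1.card ≤ lam * (ρ * u) := by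
    refine le_trans ?_ hcnt
    have hsub : bad1 ⊆ ((range (u * N)).filter (fun k => ω k = true ∧ tch (ed ∘ σ) ω A k ∧
      ((ed (σ k)).1 ∈ bal z (R + 1) ∨ (ed (σ k)).2 ∈ bal z (R + 1)))).image (fun k => k / ms d L) := by
      intro s hs
      rw [hbad1, mem_filter, mem_range] at hs
      obtain ⟨hs1, k, hk, h1⟩ := hs
      rw [mem_image]
      refine ⟨s * ms d L + k, ?_, ?_⟩
      · rw [mem_filter, mem_range]
        refine ⟨?_, h1⟩
        rw [huN]
        calc s * ms d L + k < s * ms d L + ms d L := by omega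
          _ = (s + 1) * ms d L := by ring
          _ ≤ (u * q) * ms d L := Nat.mul_le_mul_right _ (by omega)
      · rw [Nat.add_comm, Nat.add_mul_div_right _ _ hms, Nat.div_eq_of_lt hk, Nat.zero_add]
    exact (card_le_card hsub).trans card_image_le
  have hb2 : bad2.card ≤ lam * lam * (κ₀ * q) := by
    set A' := A ∩ bal z (R + ρ * u + 4) with hA'
    have hsub : bad2 ⊆ ((A' ×ˢ A').filter (fun x => x.1 ≠ x.2)).biUnion (fun x => (range (u * q)).filter
        (fun s => td (gp e ω (s * ms d L) x.1) (gp e ω (s * ms d L) x.2) ≤ 3)) := by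
      intro s hs
      rw [hbad2, mem_filter, mem_range] at hs
      obtain ⟨hs1, h, hh, h', hh', hne, htd⟩ := hs
      rw [mem_inter, mem_image, mem_bal] at hh hh'
      obtain ⟨⟨a, ha, rfl⟩, hha⟩ := hh
      obtain ⟨⟨b, hb, rfl⟩, hhb⟩ := hh'
      have hsle : s * ms d L ≤ u * N := by rw [huN]; exact Nat.mul_le_mul_right _ hs1.le
      have hin : ∀ c ∈ A, td z (gp e ω (s * ms d L) c) ≤ R + 3 → c ∈ A' := by
        intro c hc h1
        rw [hA', mem_inter, mem_bal]
        refine ⟨hc, ?_⟩
        have h2 := td_zero σ ω (s * ms d L) (u * N) (ρ * u) c hsle (hJall c hc)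
        rw [← he] at h2
        have h3 := td_tri z (gp e ω (s * ms d L) c) c
        omega
      rw [mem_biUnion]
      refine ⟨(a, b), ?_, ?_⟩
      · rw [mem_filter, mem_product]
        refine ⟨⟨hin a ha hha, hin b hb hhb⟩, ?_⟩
        intro hab
        simp only at hab
        exact hne (by rw [hab])
      · rw [mem_filter, mem_range]
        exact ⟨hs1, htd⟩
    refine (card_le_card hsub).trans ((card_biUnion_le_card_mul _ _ (κ₀ * q) ?_).trans ?_)
    · intro x hx
      rw [mem_filter, mem_product, hA', mem_inter, mem_inter] at hx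
      exact hpair x.1 hx.1.1.1 x.2 hx.1.2.1 hx.2
    · apply Nat.mul_le_mul_right
      refine (card_filter_le _ _).trans ?_
      rw [card_product]
      exact Nat.mul_le_mul hlam0 hlam0
  -- the recursion
  set Y : ℕ → ℝ := fun s => ∑ y, (g (s * ms d L) y) ^ 2 with hY
  have hY0 : ∀ s, 0 ≤ Y s := fun s => sum_nonneg fun y _ => sq_nonneg _
  set nice : ℕ → ℕ := fun s => ((range s).filter (fun t => t ∉ bad1 ∧ t ∉ bad2)).card with hnice
  have hrec : ∀ s, s ≤ u * q → Y s ^ 2 * (1 + δ / 100 * nice s) ≤ 1 := by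
    intro s
    induction s with
    | zero =>
      intro _
      have h1 : Y 0 = 1 := by
        rw [hY]
        simp only [Nat.zero_mul]
        rw [hg]
        show ∑ y, ((Pi.single z 1 : (Fin d → ZMod L) → ℝ) y) ^ 2 = 1
        rw [sum_eq_single z]
        · rw [Pi.single_eq_same]; norm_num
        · intro y _ hy
          rw [Pi.single_eq_of_ne hy]; norm_num
        · intro h; exact absurd (mem_univ _) h
      rw [h1, hnice]
      simp
    | succ s ih =>
      intro hs
      have ih' := ih (by omega)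
      have hmono : Y (s + 1) ≤ Y s := by
        rw [hY]
        simp only
        rw [Nat.succ_mul]
        exact kv_contr e ω A B δ h0.le hδ1 _ _ _
      by_cases hn : s ∉ bad1 ∧ s ∉ bad2
      · have hcard : nice (s + 1) = nice s + 1 := by
          rw [hnice]
          simp only
          rw [range_add_one, filter_insert, if_pos hn, card_insert_of_notMem]
          rw [mem_filter, mem_range]; omega
        have hsr : s ∈ range (u * q) := mem_range.2 (by omega)
        -- shifted circuit
        set i := s * ms d L with hi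
        have hsh : sh i e = e := by rw [hi, he]; exact sh_per hσ _
        set A' := A.image (gp e ω i) with hA'
        have h1 := hS d L (by omega) hL σ hσ (sh i ω) A' δ z R (g i) h0 h16 (hg0 i) (hgB i) (hgA i) (by
          intro k hk ho ht
          have ht' : tch e ω A (i + k) := by
            rw [tch_shift_set, hsh]; exact ht
          have ho' : ω (i + k) = true := by
            unfold sh at ho
            rwa [Nat.add_comm] at ho
          have hσk : σ (i + k) = σ k := by
            rw [Nat.add_comm, hi]; exact sig_per hσ _ _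
          have h2 := hn.1
          rw [hbad1, mem_filter] at h2
          by_contra hcon
          apply h2
          refine ⟨hsr, k, hk, ho', ht', ?_⟩
          rw [hσk]
          tauto)
        have h2 := hN d L hd z R hRL A' (g i) (hg0 i) (hgB i) (hgA i) (by
          intro h hh h' hh' hne
          have h3 := hn.2
          rw [hbad2, mem_filter] at h3
          by_contra hcon
          apply h3
          exact ⟨hsr, h, hh, h', hh', hne, by omega⟩)
        set E : ℝ := ∑ p : (Fin d → ZMod L) × Fin d, (if (ed p).1 ∉ A' ∧ (ed p).2 ∉ A' then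
          (g i (ed p).1 - g i (ed p).2) ^ 2 else 0) with hE
        have hE0 : 0 ≤ E := by
          rw [hE]
          apply sum_nonneg
          intro p _
          split_ifs
          · exact sq_nonneg _
          · exact le_refl _
        have hYs : Y (s + 1) = ∑ y, (kv (ed ∘ σ) (sh i ω) A' δ (bal z R) (g i) (ms d L) y) ^ 2 := by
          rw [hY]
          simp only
          have e1 : (s + 1) * ms d L = i + ms d L := by rw [hi]; ring
          rw [e1]
          apply sum_congr rfl
          intro y _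
          have e2 := kv_shift e ω A B δ (Pi.single z 1) i (ms d L)
          rw [hsh] at e2
          show (kv e ω A δ B (Pi.single z 1) (i + ms d L) y) ^ 2 = _
          rw [e2]
        have hYi : Y s = ∑ y, (g i y) ^ 2 := rfl
        rw [← hYs, ← hYi] at h1
        rw [← hYi] at h2
        have hsum4 : (∑ y, g i y) ^ 4 ≤ 1 := pow_le_one₀ (sum_nonneg fun y _ => hg0 i y) (hg1 i)
        have h3 : Y s ^ 3 ≤ 100 * E := by
          refine h2.trans ?_
          calc 100 * (∑ y, g i y) ^ 4 * E ≤ 100 * 1 * E := by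
                apply mul_le_mul_of_nonneg_right _ hE0
                linarith
            _ = 100 * E := by ring
        have h4 : Y (s + 1) ≤ Y s - δ / 200 * Y s ^ 3 := by
          have := mul_le_mul_of_nonneg_left h3 (by positivity : 0 ≤ δ / 200)
          linarith
        have h5 := rec_step (Y s) (Y (s + 1)) (δ / 200) (1 + δ / 100 * nice s) (hY0 _) (hY0 _) (by positivity)
          (by positivity) ih' h4
        rw [hcard]
        refine le_trans (le_of_eq ?_) h5
        push_cast
        ring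
      · have hcard : nice (s + 1) = nice s := by
          rw [hnice]
          simp only
          rw [range_add_one, filter_insert, if_neg hn]
        rw [hcard]
        refine le_trans ?_ ih'
        apply mul_le_mul_of_nonneg_right _ (by positivity)
        exact pow_le_pow_left₀ (hY0 _) hmono 2
  have hfin := hrec (u * q) (le_refl _)
  have hnc : u * q ≤ 2 * nice (u * q) := by
    have h1 : (range (u * q)).card ≤ nice (u * q) + (bad1.card + bad2.card) := by
      have h2 : range (u * q) ⊆ ((range (u * q)).filter (fun t => t ∉ bad1 ∧ t ∉ bad2)) ∪ (bad1 ∪ bad2) := by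
        intro t ht
        rw [mem_union, mem_union, mem_filter]
        tauto
      refine (card_le_card h2).trans ((card_union_le _ _).trans ?_)
      exact Nat.add_le_add_left (card_union_le _ _) _
    rw [card_range] at h1
    have h3 : 4 * (lam * (ρ * u)) ≤ q * u := by
      calc 4 * (lam * (ρ * u)) = (4 * lam * ρ) * u := by ring
        _ ≤ q * u := Nat.mul_le_mul_right _ hk2
    have h4 : 4 * (lam * lam * (κ₀ * q)) ≤ u * q := by
      calc 4 * (lam * lam * (κ₀ * q)) = (4 * lam ^ 2 * κ₀) * q := by ring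
        _ ≤ u * q := Nat.mul_le_mul_right _ hk1
    rw [Nat.mul_comm q u] at h3
    omega
  obtain ⟨m, rfl⟩ : ∃ m, n = u * N + m := ⟨n - u * N, by omega⟩
  obtain ⟨m', hm'⟩ : ∃ m', (u + 1) * N = (u * N + m) + m' := ⟨(u + 1) * N - (u * N + m), by omega⟩
  refine ⟨g (u * N + m), ?_, ?_, ?_⟩
  · intro y
    refine ⟨hg0 _ _, hgT _ _, ?_⟩
    intro h
    by_contra h1
    apply h
    apply hgB
    rw [hB, mem_bal]; exact h1
  · have h1 : ∑ y, (g (u * N + m) y) ^ 2 ≤ Y (u * q) := by
      rw [hY]
      simp only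
      rw [← huN]
      exact kv_contr e ω A B δ h0.le hδ1 _ _ _
    refine h1.trans ?_
    have hur : (1 : ℝ) ≤ u := by exact_mod_cast hu
    have h2 : (u : ℝ) ≤ 2 * (δ * nice (u * q)) := by
      have h3 : ((u * q : ℕ) : ℝ) ≤ ((2 * nice (u * q) : ℕ) : ℝ) := by exact_mod_cast hnc
      push_cast at h3
      have h4 : (u : ℝ) * 1 ≤ u * (δ * q) := mul_le_mul_of_nonneg_left hq1 (by linarith)
      have h5 : δ * (u * q) ≤ δ * (2 * nice (u * q)) := mul_le_mul_of_nonneg_left h3 h0.le
      linarith
    have h6 : Y (u * q) ^ 2 * (u / 200) ≤ 1 := by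
      refine le_trans ?_ hfin
      apply mul_le_mul_of_nonneg_left _ (sq_nonneg _)
      linarith
    have hsu : 0 < √(u : ℝ) := Real.sqrt_pos.2 (by linarith)
    rw [le_div_iff₀ hsu]
    have h7 : (Y (u * q) * √(u : ℝ)) ^ 2 ≤ 20 ^ 2 := by
      rw [mul_pow, Real.sq_sqrt (by linarith)]
      linarith
    exact (abs_le_of_sq_le_sq' h7 (by norm_num)).2
  · have h0' : ∑ y, g ((u + 1) * N) y ≤ ∑ y, g (u * N + m) y := by
      rw [hm']
      exact kv_mass e ω A B δ h0.le hδ1 _ hs0 _ _
    have h1 := (hK L hL σ hσ ω A δ q (u + 1) R z h0 hCKδ hq2).2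
    have h1' : 1 - ∑ y, g (u * N + m) y ≤ 1 - ∑ y, g ((u + 1) * N) y := by linarith
    refine h1'.trans (h1.trans ?_)
    apply Real.exp_le_exp.2
    set n1 := ((Finset.range ((u + 1) * (q * ms d L))).filter fun k => ω k = true ∧
      tch (ed ∘ σ) ω A k ∧ ((ed (σ k)).1 ∈ bal z R ∨ (ed (σ k)).2 ∈ bal z R)).card with hn1
    have h2 : n1 ≤ lam * (ρ * (u + 1)) := by
      refine le_trans ?_ hcnt1
      rw [hn1]
      apply card_le_card
      intro k hk
      rw [mem_filter] at hk ⊢
      refine ⟨hk.1, hk.2.1, hk.2.2.1, ?_⟩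
      rcases hk.2.2.2 with h3 | h3
      · left; rw [mem_bal] at h3 ⊢; omega
      · right; rw [mem_bal] at h3 ⊢; omega
    have h3 : (n1 : ℝ) ≤ lam * (ρ * (u + 1)) := by exact_mod_cast h2
    have h4 : (((⌈CK⌉₊ + 1 + 16 * d : ℕ) : ℝ)) * (lam * ρ + 1) * (u + 1) ≤ R := by exact_mod_cast hR
    rw [hCr] at h4
    have hur : (1 : ℝ) ≤ u := by exact_mod_cast hu
    have h5 : 0 ≤ (lam : ℝ) * (ρ * (u + 1)) := by positivity
    have h6 : CK * ((u + 1 : ℕ) + n1) ≤ ⌈CK⌉₊ * ((u + 1) + lam * (ρ * (u + 1))) := by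
      push_cast
      apply mul_le_mul hCKr (by linarith) (by positivity) hceil0
    nlinarith [mul_nonneg hd0 (by positivity : 0 ≤ ((lam : ℝ) * ρ + 1) * (u + 1))]

/-- job SMO2 -/
theorem smo2 : S_SMO2 :=
  smo2_of Pool.Agent.Q53.LC.kil Pool.Agent.Q53.LC.swd Pool.Agent.Q229.LC.NA1.na1

end torus

end Pool.Agent.J6H59.P2
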